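import Pool.Agent.Y516.OJ.Stm

set_option autoImplicit false

/-!
# No many pairs of sets read the same cell with small error probabilities
-/

namespace Pool.Agent.Y502.OJ

open Finset Pool.Agent.Y516.OJ

/-! ### Product weights -/

theorem marg {ι A : Type} [Fintype ι] [DecidableEq ι] [Fintype A] (W : A → ℝ)
    (hW : ∑ a, W a = 1) (e : ι) (g : A → ℝ) :
    ∑ X : ι → A, (∏ i, W (X i)) * g (X e) = ∑ a, W a * g a := by
  have h1 : ∀ X : ι → A, (∏ i, W (X i)) * g (X e) =
      ∏ i, (W (X i) * if i = e then g (X i) else 1) := by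
    intro X
    rw [Finset.prod_mul_distrib]
    simp
  simp_rw [h1]
  rw [← Fintype.piFinset_univ,
    ← Finset.prod_univ_sum (fun _ => Finset.univ) (fun i a => W a * if i = e then g a else 1)]
  rw [Finset.prod_eq_single e]
  · simp
  · intro i _ hi
    simp [hi, hW]
  · simp

theorem tot {ι A : Type} [Fintype ι] [DecidableEq ι] [Fintype A] (W : A → ℝ)
    (hW : ∑ a, W a = 1) : ∑ X : ι → A, (∏ i, W (X i)) = 1 := by
  rw [← Fintype.piFinset_univ,
    ← Finset.prod_univ_sum (fun _ => Finset.univ) (fun _ a => W a)]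
  simp [hW]

theorem wt_sum (α : ℝ) {k : ℕ} : ∑ x : Fin k → Bool, wt α x = 1 := by
  unfold wt
  exact tot (ι := Fin k) (fun b : Bool => if b = true then α else 1 - α) (by simp)

theorem wt_marg (α : ℝ) {k : ℕ} (i : Fin k) :
    ∑ x : Fin k → Bool, wt α x * ind (x i = true) = α := by
  unfold wt
  have h := marg (ι := Fin k) (fun b : Bool => if b = true then α else 1 - α) (by simp) i
    (fun b => ind (b = true))
  rw [h]
  simp [ind]

theorem Wt_sum (α : ℝ) {u k : ℕ} : ∑ X : Fam u k, Wt α X = 1 := by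
  unfold Wt
  exact tot (ι := Fin u) (fun x : Fin k → Bool => wt α x) (wt_sum α)

theorem Wt_marg (α : ℝ) {u k : ℕ} (e : Fin u) (i : Fin k) :
    ∑ X : Fam u k, Wt α X * ind (X e i = true) = α := by
  unfold Wt
  have h := marg (ι := Fin u) (fun x : Fin k → Bool => wt α x) (wt_sum α) e
    (fun x => ind (x i = true))
  rw [h]
  exact wt_marg α i

theorem Wt_nonneg {α : ℝ} (h0 : 0 ≤ α) (h1 : α ≤ 1) {u k : ℕ} (X : Fam u k) : 0 ≤ Wt α X := by
  unfold Wt wt
  refine Finset.prod_nonneg fun e _ => Finset.prod_nonneg fun i _ => ?_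
  split_ifs <;> linarith

/-! ### Expectations -/

theorem ind_nonneg (P : Prop) : 0 ≤ ind P := by
  unfold ind; split_ifs <;> norm_num

theorem ind_true {P : Prop} (h : P) : ind P = 1 := by
  unfold ind; rw [if_pos h]

theorem ind_false {P : Prop} (h : ¬ P) : ind P = 0 := by
  unfold ind; rw [if_neg h]

theorem EE_mono {α : ℝ} (h0 : 0 ≤ α) (h1 : α ≤ 1) {u k : ℕ} {f g : Fam u k → Fam u k → ℝ}
    (h : ∀ X Y, f X Y ≤ g X Y) : EE α f ≤ EE α g := by
  unfold EE
  refine Finset.sum_le_sum fun X _ => Finset.sum_le_sum fun Y _ => ?_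
  exact mul_le_mul_of_nonneg_left (h X Y) (mul_nonneg (Wt_nonneg h0 h1 X) (Wt_nonneg h0 h1 Y))

theorem EE_one (α : ℝ) {u k : ℕ} : EE α (fun (_ _ : Fam u k) => (1 : ℝ)) = 1 := by
  unfold EE
  simp_rw [mul_one, ← Finset.mul_sum, Wt_sum, mul_one]
  exact Wt_sum α

theorem EE_add (α : ℝ) {u k : ℕ} (f g : Fam u k → Fam u k → ℝ) :
    EE α (fun X Y => f X Y + g X Y) = EE α f + EE α g := by
  unfold EE
  simp_rw [mul_add, Finset.sum_add_distrib]

theorem EE_mul (α c : ℝ) {u k : ℕ} (f : Fam u k → Fam u k → ℝ) :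
    EE α (fun X Y => c * f X Y) = c * EE α f := by
  unfold EE
  simp_rw [Finset.mul_sum]
  refine Finset.sum_congr rfl fun X _ => Finset.sum_congr rfl fun Y _ => by ring

theorem EE_sum (α : ℝ) {u k : ℕ} {ι : Type} (s : Finset ι) (f : ι → Fam u k → Fam u k → ℝ) :
    EE α (fun X Y => ∑ i ∈ s, f i X Y) = ∑ i ∈ s, EE α (f i) := by
  classical
  induction s using Finset.induction_on with
  | empty =>
    simp [EE]
  | insert a s ha ih =>
    simp_rw [Finset.sum_insert ha]
    rw [EE_add, ih]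

theorem EE_pair (α : ℝ) {u k : ℕ} (e : Fin u) (i j : Fin k) :
    EE α (fun (X Y : Fam u k) => ind (X e i = true) * ind (Y e j = true)) = α * α := by
  unfold EE
  have h : ∀ X Y : Fam u k, Wt α X * Wt α Y * (ind (X e i = true) * ind (Y e j = true)) =
      (Wt α X * ind (X e i = true)) * (Wt α Y * ind (Y e j = true)) := by
    intro X Y; ring
  simp_rw [h, ← Finset.mul_sum, Wt_marg, ← Finset.sum_mul, Wt_marg]

/-- two sets with the same number are rarely not disjoint -/
theorem EE_notDisj {α : ℝ} (h0 : 0 ≤ α) (h1 : α ≤ 1) {u k : ℕ} (d : Fin k × Fin k) :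
    EE α (fun (X Y : Fam u k) => ind (¬ Disj X Y d)) ≤ u * (α * α) := by
  have h2 : EE α (fun (X Y : Fam u k) => ind (¬ Disj X Y d)) ≤
      EE α (fun (X Y : Fam u k) => ∑ e : Fin u, ind (X e d.1 = true) * ind (Y e d.2 = true)) := by
    refine EE_mono h0 h1 fun X Y => ?_
    by_cases h : Disj X Y d
    · rw [ind_false (not_not.mpr h)]
      exact Finset.sum_nonneg fun e _ => mul_nonneg (ind_nonneg _) (ind_nonneg _)
    · rw [ind_true h]
      unfold Disj at h
      push Not at h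
      obtain ⟨e, he1, he2⟩ := h
      have h3 : ind (X e d.1 = true) * ind (Y e d.2 = true) = 1 := by
        rw [ind_true he1, ind_true he2]; norm_num
      rw [← h3]
      exact Finset.single_le_sum
        (f := fun e => ind (X e d.1 = true) * ind (Y e d.2 = true))
        (fun e _ => mul_nonneg (ind_nonneg _) (ind_nonneg _)) (Finset.mem_univ e)
  rw [EE_sum] at h2
  simp_rw [EE_pair] at h2
  simpa using h2

/-- the probability of at least `r + 1` events -/
theorem card_eq_sum {β : Type} (D : Finset β) (P : β → Prop) [DecidablePred P] :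
    ((D.filter P).card : ℝ) = ∑ d ∈ D, ind (P d) := by
  rw [Finset.card_filter]
  push_cast
  refine Finset.sum_congr rfl fun d _ => ?_
  unfold ind
  split_ifs <;> rfl

theorem dp : UBStm → ParStm → DPStm := by
  classical
  intro hUB hPar w b m M k s hw hb hm hM J addr query D c hdep hcard haddr hsmall
  obtain ⟨hp1, hp2⟩ := hPar w b m M hw hb hm hM
  have hm1 : 4000 ≤ m := by omega
  have hMm : 10000 * m ≤ M := by
    rw [hM]
    nlinarith
  have hM1 : 40000000 ≤ M := by omega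
  have hMR : (40000000 : ℝ) ≤ (M : ℝ) := by exact_mod_cast hM1
  have hM0 : (0 : ℝ) < (M : ℝ) := by linarith
  have hMmR : 10000 * (m : ℝ) ≤ (M : ℝ) := by exact_mod_cast hMm
  have hm1R : (4000 : ℝ) ≤ (m : ℝ) := by exact_mod_cast hm1
  set α : ℝ := 1 / (M : ℝ) with hα
  have hα0 : 0 < α := by positivity
  have hα1 : α ≤ 1 := by
    rw [hα, div_le_one hM0]; linarith
  have h10 : 10 * (m : ℝ) * α ≤ 1 := by
    rw [hα, mul_one_div, div_le_one hM0]; linarith
  -- the weight of a pair which is not disjoint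
  have huα : ((M ^ 2 / 8 : ℕ) : ℝ) * (α * α) ≤ 1 / 8 := by
    have h1 : ((M ^ 2 / 8 : ℕ) : ℝ) ≤ (M : ℝ) ^ 2 / 8 := by
      have := @Nat.cast_div_le ℝ _ _ _ (M ^ 2) 8
      simpa using this
    have h2 : (M : ℝ) ^ 2 / 8 * (α * α) = 1 / 8 := by
      rw [hα]; field_simp
    calc ((M ^ 2 / 8 : ℕ) : ℝ) * (α * α) ≤ (M : ℝ) ^ 2 / 8 * (α * α) :=
          mul_le_mul_of_nonneg_right h1 (by positivity)
      _ = 1 / 8 := h2
  set r : ℕ := m / 10000 with hr
  have hr1 : m < 10000 * (r + 1) := by omega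
  have hr1R : (m : ℝ) < 10000 * ((r : ℝ) + 1) := by exact_mod_cast hr1
  -- errors
  set nW : Fam (M ^ 2 / 8) k → Fam (M ^ 2 / 8) k → ℕ := fun X Y =>
    (D.filter fun d => Wrong J addr query X Y d).card with hnW
  have hEW : EE α (fun X Y => (nW X Y : ℝ)) ≤ m * (2 / 10 ^ 6) := by
    have h1 : (fun X Y => (nW X Y : ℝ)) =
        fun X Y => ∑ d ∈ D, ind (Wrong J addr query X Y d) := by
      funext X Y
      exact card_eq_sum D _
    rw [h1, EE_sum]
    calc ∑ d ∈ D, EE α (fun X Y => ind (Wrong J addr query X Y d)) ≤ ∑ d ∈ D, (2 / 10 ^ 6 : ℝ) :=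
          Finset.sum_le_sum fun d hd => hsmall d hd
      _ = m * (2 / 10 ^ 6) := by rw [Finset.sum_const, hcard, nsmul_eq_mul]
  have hPW : EE α (fun X Y => ind (r + 1 ≤ nW X Y)) ≤ 1 / 50 := by
    have h1 : EE α (fun X Y => ((r : ℝ) + 1) * ind (r + 1 ≤ nW X Y)) ≤
        EE α (fun X Y => (nW X Y : ℝ)) := by
      refine EE_mono hα0.le hα1 fun X Y => ?_
      by_cases h : r + 1 ≤ nW X Y
      · rw [ind_true h, mul_one]; exact_mod_cast h
      · rw [ind_false h, mul_zero]; exact Nat.cast_nonneg _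
    rw [EE_mul] at h1
    have h2 : 0 ≤ EE α (fun X Y => ind (r + 1 ≤ nW X Y)) := by
      unfold EE
      exact Finset.sum_nonneg fun X _ => Finset.sum_nonneg fun Y _ =>
        mul_nonneg (mul_nonneg (Wt_nonneg hα0.le hα1 X) (Wt_nonneg hα0.le hα1 Y)) (ind_nonneg _)
    have h3 := h1.trans hEW
    nlinarith
  -- pairs which are not disjoint
  have hEI : EE α (fun (X Y : Fam (M ^ 2 / 8) k) => (nInt D X Y : ℝ)) ≤ m * (1 / 8) := by
    have h1 : (fun (X Y : Fam (M ^ 2 / 8) k) => (nInt D X Y : ℝ)) =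
        fun X Y => ∑ d ∈ D, ind (¬ Disj X Y d) := by
      funext X Y
      unfold nInt
      exact card_eq_sum D _
    rw [h1, EE_sum]
    calc ∑ d ∈ D, EE α (fun (X Y : Fam (M ^ 2 / 8) k) => ind (¬ Disj X Y d)) ≤
          ∑ d ∈ D, (1 / 8 : ℝ) :=
          Finset.sum_le_sum fun d _ => (EE_notDisj hα0.le hα1 d).trans huα
      _ = m * (1 / 8) := by rw [Finset.sum_const, hcard, nsmul_eq_mul]
  have hPI : EE α (fun (X Y : Fam (M ^ 2 / 8) k) => ind (¬ 2 * nInt D X Y ≤ m)) ≤ 1 / 4 := by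
    have h1 : EE α (fun (X Y : Fam (M ^ 2 / 8) k) => ((m : ℝ) / 2) * ind (¬ 2 * nInt D X Y ≤ m)) ≤
        EE α (fun (X Y : Fam (M ^ 2 / 8) k) => (nInt D X Y : ℝ)) := by
      refine EE_mono hα0.le hα1 fun X Y => ?_
      by_cases h : 2 * nInt D X Y ≤ m
      · rw [ind_false (not_not.mpr h), mul_zero]; exact Nat.cast_nonneg _
      · rw [ind_true h, mul_one]
        have h' : (m : ℝ) < 2 * (nInt D X Y : ℝ) := by exact_mod_cast (not_le.mp h)
        linarith
    rw [EE_mul] at h1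
    have h3 := h1.trans hEI
    nlinarith
  -- the good event
  have hgood : 5 / 8 ≤ EE α (fun X Y => ind (nW X Y ≤ r ∧ 2 * nInt D X Y ≤ m)) := by
    have h1 : EE α (fun (_ _ : Fam (M ^ 2 / 8) k) => (1 : ℝ)) ≤
        EE α (fun X Y => ind (nW X Y ≤ r ∧ 2 * nInt D X Y ≤ m) +
          (ind (r + 1 ≤ nW X Y) + ind (¬ 2 * nInt D X Y ≤ m))) := by
      refine EE_mono hα0.le hα1 fun X Y => ?_
      have a1 := ind_nonneg (nW X Y ≤ r ∧ 2 * nInt D X Y ≤ m)
      have a2 := ind_nonneg (r + 1 ≤ nW X Y)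
      have a3 := ind_nonneg (¬ 2 * nInt D X Y ≤ m)
      by_cases h : r + 1 ≤ nW X Y
      · rw [ind_true h] at *; linarith
      · by_cases h' : 2 * nInt D X Y ≤ m
        · rw [ind_true (show nW X Y ≤ r ∧ 2 * nInt D X Y ≤ m from ⟨by omega, h'⟩)] at *
          linarith
        · rw [ind_true h'] at *; linarith
    rw [EE_one, EE_add, EE_add] at h1
    linarith
  have hsplit : EE α (fun X Y => ind (nW X Y ≤ r ∧ 2 * nInt D X Y ≤ m)) ≤
      EE α (fun X Y => ∑ v : Fin (2 ^ w),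
        ind (nErr D (fun d => query d v) X Y ≤ r ∧ 2 * nInt D X Y ≤ m)) := by
    refine EE_mono hα0.le hα1 fun X Y => ?_
    have h1 : nErr D (fun d => query d (J X Y c)) X Y = nW X Y := by
      unfold nErr
      rw [hnW]
      dsimp only
      congr 1
      refine Finset.filter_congr fun d hd => ?_
      unfold Wrong
      rw [haddr d hd]
    have h2 : ind (nW X Y ≤ r ∧ 2 * nInt D X Y ≤ m) =
        ind (nErr D (fun d => query d (J X Y c)) X Y ≤ r ∧ 2 * nInt D X Y ≤ m) := by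
      rw [h1]
    rw [h2]
    exact Finset.single_le_sum
      (f := fun v => ind (nErr D (fun d => query d v) X Y ≤ r ∧ 2 * nInt D X Y ≤ m))
      (fun v _ => ind_nonneg _) (Finset.mem_univ (J X Y c))
  rw [EE_sum] at hsplit
  have hub : ∀ v : Fin (2 ^ w), EE α (fun (X Y : Fam (M ^ 2 / 8) k) =>
      ind (nErr D (fun d => query d v) X Y ≤ r ∧ 2 * nInt D X Y ≤ m)) < (5 / 8) / 2 ^ w := by
    intro v
    refine lt_of_le_of_lt ?_ hp2
    exact hUB (M ^ 2 / 8) k m b r α (399 / 400) D (fun d => query d v) hα0 h10 (by omega) hcard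
      (fun d => hdep d v) (by norm_num) (by norm_num) hp1
  have hne : (Finset.univ : Finset (Fin (2 ^ w))).Nonempty :=
    ⟨⟨0, by positivity⟩, Finset.mem_univ _⟩
  have hlt : ∑ v : Fin (2 ^ w), EE α (fun (X Y : Fam (M ^ 2 / 8) k) =>
      ind (nErr D (fun d => query d v) X Y ≤ r ∧ 2 * nInt D X Y ≤ m)) <
      ∑ v : Fin (2 ^ w), (5 / 8) / (2 : ℝ) ^ w :=
    Finset.sum_lt_sum_of_nonempty hne fun v _ => hub v
  have hval : ∑ v : Fin (2 ^ w), (5 / 8) / (2 : ℝ) ^ w = 5 / 8 := by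
    rw [Finset.sum_const, Finset.card_univ, Fintype.card_fin, nsmul_eq_mul]
    push_cast
    field_simp
  linarith

end Pool.Agent.Y502.OJ
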